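import Mathlib

set_option autoImplicit false

open Module

namespace Pool.Agent.Helper93.Eggert

/-- The bilinear form `(a,b) ↦ φ (c a b)`. -/
noncomputable def bf {M R : Type*} [Field M] [CommRing R] [Algebra M R]
    (φ : R →ₗ[M] M) (c : R) : LinearMap.BilinForm M R :=
  (LinearMap.mul M R).compr₂ (φ ∘ₗ LinearMap.mulLeft M c)

section
variable {M R : Type*} [Field M] [CommRing R] [Algebra M R]

lemma bf_apply (φ : R →ₗ[M] M) (c a b : R) : bf φ c a b = φ (c * (a * b)) := rfl

lemma mem_ker_bf (φ : R →ₗ[M] M) (I : Ideal R) (hI : ∀ a, a ∈ I ↔ ∀ b, φ (a * b) = 0)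
    (c a : R) : a ∈ LinearMap.ker (bf φ c) ↔ c * a ∈ I := by
  rw [LinearMap.mem_ker, hI]
  constructor
  · intro h b
    have := congrArg (fun f => f b) h
    simp only [bf_apply, LinearMap.zero_apply] at this
    rw [mul_assoc]; exact this
  · intro h
    ext b
    rw [bf_apply, LinearMap.zero_apply, ← mul_assoc]
    exact h b

lemma socle (m Z : Ideal R) (N : ℕ) (hN : m ^ N = ⊥) (x : R) (hx : x ∉ Z) :
    ∃ b, b * x ∉ Z ∧ ∀ c ∈ m, c * (b * x) ∈ Z := by
  classical
  have hex : ∃ k : ℕ, ∀ c ∈ m ^ k, c * x ∈ Z := by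
    refine ⟨N, fun c hc => ?_⟩
    rw [hN] at hc
    rw [(Submodule.mem_bot R).1 hc, zero_mul]; exact Z.zero_mem
  have hk := Nat.find_spec hex
  have hmin : ∀ k, k < Nat.find hex → ¬ (∀ c ∈ m ^ k, c * x ∈ Z) := fun k hk => Nat.find_min hex hk
  generalize Nat.find hex = k at hk hmin
  cases k with
  | zero =>
    exfalso; apply hx
    have := hk 1 (by simp)
    rwa [one_mul] at this
  | succ k =>
    have h2 := hmin k (Nat.lt_succ_self k)
    push Not at h2
    obtain ⟨b, hb, hbx⟩ := h2
    refine ⟨b, hbx, fun c hc => ?_⟩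
    rw [← mul_assoc]
    apply hk
    rw [pow_succ, mul_comm c b]
    exact Ideal.mul_mem_mul hb hc

end

theorem count {M R : Type*} [Field M] [CommRing R] [Algebra M R] [Module.Finite M R]
    (p : ℕ) [Fact p.Prime] [CharP M p]
    (m : Ideal R) (hm : ∃ N : ℕ, m ^ N = ⊥)
    (hloc : ∀ r : R, ∃ c : M, r - algebraMap M R c ∈ m)
    (φ : R →ₗ[M] M) (I Z Y : Ideal R)
    (hI : ∀ a, a ∈ I ↔ ∀ b, φ (a * b) = 0)
    (hZ : ∀ a, a ∈ Z ↔ a ^ p = 0)
    (hY : ∀ a, a ∈ Y ↔ ∀ c ∈ m, c * a ∈ Z)
    (h1 : ∀ a : R, a ^ p ∈ I → a ^ p = 0)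
    (s : ℕ) (hs : s ≤ finrank M (I.restrictScalars M) + 1)
    (Λ : R →ₗ[M] (Fin s → M)) (hΛ : ∀ a, Λ a = 0 → φ (a ^ p) = 0)
    (C : Set R) (hC : Submodule.span M C = m.restrictScalars M)
    (u : R) (hu : u ∈ Y)
    (hKL : ∀ c n : R, (c = 1 ∨ c ∈ C) → n ∈ Y →
      (∀ y ∈ Y, c * u ^ (p - 2) * n * y ∈ I) → c * n ^ p ∈ I) :
    p * finrank M R + 1 ≤ p * finrank M (Z.restrictScalars M) + finrank M R + p := by
  obtain ⟨N, hN⟩ := hm
  have hp2 : 2 ≤ p := (Fact.out : p.Prime).two_le
  -- nilpotence criterion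
  have key : ∀ n : R, n ∈ Y → (∀ y ∈ Y, u ^ (p - 2) * n * y ∈ I) → n ∈ Z := by
    intro n hn h
    have h3 := hKL 1 n (Or.inl rfl) hn (fun y hy => by rw [one_mul]; exact h y hy)
    rw [one_mul] at h3
    exact (hZ n).2 (h1 n h3)
  have soc : ∀ x : R, x ∉ Z → ∃ b, b * x ∉ Z ∧ b * x ∈ Y := by
    intro x hx
    obtain ⟨b, hb, hb'⟩ := socle m Z N hN x hx
    exact ⟨b, hb, (hY _).2 hb'⟩
  -- (1)
  have s1 : ∀ j, j ≤ p - 2 → ∀ a, u ^ j * a ∈ I → a ∈ Z := by
    intro j hj a ha
    by_contra hna
    obtain ⟨b, hb, hbY⟩ := soc a hna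
    apply hb
    apply key _ hbY
    intro y hy
    have e : u ^ (p - 2) * (b * a) * y = (u ^ (p - 2 - j) * b * y) * (u ^ j * a) := by
      have : u ^ (p - 2) = u ^ (p - 2 - j) * u ^ j := by
        rw [← pow_add, Nat.sub_add_cancel hj]
      rw [this]; ring
    rw [e]
    exact I.mul_mem_left _ ha
  -- (2)
  set z := finrank M (Z.restrictScalars M) with hz
  set r := finrank M R with hr
  have s2 : ∀ j, j + 1 ≤ p - 2 →
      finrank M (LinearMap.ker (bf φ (u ^ j))) + r ≤
        finrank M (LinearMap.ker (bf φ (u ^ (j + 1)))) + (z + 1) := by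
    intro j hj
    set W : Submodule M R := LinearMap.range (LinearMap.mulLeft M u) ⊔ LinearMap.ker (bf φ (u ^ j))
      with hW
    have hfo := LinearMap.BilinForm.finrank_add_finrank_orthogonal' (B := bf φ (u ^ j)) W
    have hWle : W ≤ Submodule.span M {u} ⊔ Z.restrictScalars M := by
      rw [hW]
      apply sup_le
      · rintro _ ⟨b, rfl⟩
        obtain ⟨c, hc⟩ := hloc b
        rw [LinearMap.mulLeft_apply]
        have e : u * b = c • u + (b - algebraMap M R c) * u := by
          rw [Algebra.smul_def]; ring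
        rw [e]
        apply Submodule.add_mem_sup
        · exact Submodule.smul_mem _ _ (Submodule.mem_span_singleton_self u)
        · exact (hY u).1 hu _ hc
      · apply le_sup_of_le_right
        intro a ha
        exact s1 j (by omega) a ((mem_ker_bf φ I hI _ _).1 ha)
    have hW1 : finrank M W ≤ z + 1 := by
      calc finrank M W ≤ finrank M (Submodule.span M {u} ⊔ Z.restrictScalars M : Submodule M R) :=
            Submodule.finrank_mono hWle
        _ ≤ finrank M (Submodule.span M {u} : Submodule M R) + z :=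
            Submodule.finrank_add_le_finrank_add_finrank _ _
        _ ≤ 1 + z := by
            have := finrank_span_le_card (R := M) ({u} : Set R)
            simp at this
            omega
        _ = z + 1 := by ring
    have hW2 : finrank M ((bf φ (u ^ j)).orthogonal W) ≤
        finrank M (LinearMap.ker (bf φ (u ^ (j + 1)))) := by
      apply Submodule.finrank_mono
      intro a ha
      rw [mem_ker_bf φ I hI, hI]
      intro b
      have h3 := (LinearMap.BilinForm.mem_orthogonal_iff.1 ha) (u * b)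
        (Submodule.mem_sup_left ⟨b, rfl⟩)
      have h4 : bf φ (u ^ j) (u * b) a = 0 := h3
      rw [bf_apply] at h4
      rw [← h4]; congr 1; ring
    have hW3 : finrank M (LinearMap.ker (bf φ (u ^ j))) ≤
        finrank M (W ⊓ LinearMap.ker (bf φ (u ^ j)) : Submodule M R) := by
      apply Submodule.finrank_mono
      exact le_inf le_sup_right le_rfl
    have hfo' : finrank M W + finrank M ((bf φ (u ^ j)).orthogonal W) =
        finrank M R + finrank M (W ⊓ LinearMap.ker (bf φ (u ^ j)) : Submodule M R) := hfo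
    omega
  have s2' : ∀ j, j ≤ p - 2 →
      finrank M (I.restrictScalars M) + j * r ≤
        finrank M (LinearMap.ker (bf φ (u ^ j))) + j * (z + 1) := by
    intro j
    induction j with
    | zero =>
      intro _
      have : finrank M (I.restrictScalars M) ≤ finrank M (LinearMap.ker (bf φ (u ^ 0))) := by
        apply Submodule.finrank_mono
        intro a ha
        rw [mem_ker_bf φ I hI, pow_zero, one_mul]
        exact ha
      omega
    | succ j ih =>
      intro hj
      have h3 := ih (by omega)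
      have h4 := s2 j hj
      rw [add_mul, add_mul, one_mul, one_mul]
      omega
  -- (3)
  set X : Submodule M R := (bf φ (u ^ (p - 2))).orthogonal (Z.restrictScalars M) with hX
  have hXmem : ∀ x, x ∈ X ↔ ∀ n ∈ Z, φ (u ^ (p - 2) * (n * x)) = 0 := by
    intro x
    rw [hX, LinearMap.BilinForm.mem_orthogonal_iff]
    rfl
  have s3 : r + finrank M (LinearMap.ker (bf φ (u ^ (p - 2)))) ≤ z + finrank M X := by
    have hfo : z + finrank M X =
        r + finrank M (Z.restrictScalars M ⊓ LinearMap.ker (bf φ (u ^ (p - 2))) : Submodule M R) :=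
      LinearMap.BilinForm.finrank_add_finrank_orthogonal' (B := bf φ (u ^ (p - 2)))
        (Z.restrictScalars M)
    have h4 : finrank M (LinearMap.ker (bf φ (u ^ (p - 2)))) ≤
        finrank M (Z.restrictScalars M ⊓ LinearMap.ker (bf φ (u ^ (p - 2))) : Submodule M R) := by
      apply Submodule.finrank_mono
      refine le_inf ?_ le_rfl
      intro a ha
      exact s1 (p - 2) le_rfl a ((mem_ker_bf φ I hI _ _).1 ha)
    omega
  -- (4)
  have s4 : ∀ x ∈ X, x ∈ Y := by
    intro x hx
    rw [hY]
    intro c hc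
    by_contra hcx
    obtain ⟨b, hb, hbY⟩ := soc (c * x) hcx
    apply hb
    apply key _ hbY
    intro y hy
    rw [hI]
    intro t
    have hw : y * t ∈ Y := Y.mul_mem_right _ hy
    have hcw : b * (c * (y * t)) ∈ Z := Z.mul_mem_left _ ((hY _).1 hw c hc)
    have h5 := (hXmem x).1 hx _ hcw
    rw [← h5]; congr 1; ring
  -- (5)
  have s5 : ∀ x ∈ X, Λ x = 0 → x ∈ Z := by
    intro x hx hΛx
    have hCx : ∀ c ∈ C, c * x ^ p ∈ I := by
      intro c hc
      have hcm : c ∈ m := by
        have : c ∈ Submodule.span M C := Submodule.subset_span hc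
        rw [hC] at this
        exact this
      apply hKL c x (Or.inr hc) (s4 x hx)
      intro y hy
      rw [hI]
      intro t
      have hw : y * t ∈ Y := Y.mul_mem_right _ hy
      have hcw : c * (y * t) ∈ Z := (hY _).1 hw c hcm
      have h5 := (hXmem x).1 hx _ hcw
      rw [← h5]; congr 1; ring
    have hmx : ∀ c ∈ m, c * x ^ p ∈ I := by
      intro c hc
      have h6 : c ∈ Submodule.span M C := by rw [hC]; exact hc
      have h7 : Submodule.span M C ≤ (I.restrictScalars M).comap (LinearMap.mulRight M (x ^ p)) := by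
        rw [Submodule.span_le]
        intro c hc
        exact hCx c hc
      exact h7 h6
    have hxI : x ^ p ∈ I := by
      rw [hI]
      intro b
      obtain ⟨c, hc⟩ := hloc b
      have e : x ^ p * b = c • x ^ p + (b - algebraMap M R c) * x ^ p := by
        rw [Algebra.smul_def]; ring
      have h8 := (hI _).1 (hmx _ hc) 1
      rw [mul_one] at h8
      rw [e, map_add, map_smul, hΛ x hΛx, h8, smul_zero, add_zero]
    exact (hZ x).2 (h1 x hxI)
  have s6 : finrank M X ≤ s + z := by
    have h9 := LinearMap.finrank_range_add_finrank_ker (Λ.domRestrict X)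
    have h10 : finrank M (LinearMap.range (Λ.domRestrict X)) ≤ s := by
      have := Submodule.finrank_le (LinearMap.range (Λ.domRestrict X))
      simpa using this
    have h11 : finrank M (LinearMap.ker (Λ.domRestrict X)) ≤ z := by
      rw [← Submodule.finrank_map_subtype_eq]
      apply Submodule.finrank_mono
      rintro _ ⟨⟨x, hx⟩, hx2, rfl⟩
      have hx3 : Λ x = 0 := hx2
      exact s5 x hx hx3
    omega
  have s7 := s2' (p - 2) le_rfl
  obtain ⟨q, rfl⟩ : ∃ q, p = q + 2 := ⟨p - 2, by omega⟩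
  have e2 : q + 2 - 2 = q := by omega
  rw [e2] at s7 s3
  nlinarith
 
end Pool.Agent.Helper93.Eggert
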